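import Mathlib

/-!
Edge-critical subgraphs and their restriction to the non-isolated vertices.
-/

set_option autoImplicit false

namespace Pool.Agent.N426.Dense

open SimpleGraph

/-- a finite graph without a proper colouring with `q` colours has an edge-critical such subgraph -/
theorem min_crit {V : Type*} [Finite V] (G : SimpleGraph V) (q : ℕ) (h : ¬ G.Colorable q) :
    ∃ H : SimpleGraph V, H ≤ G ∧ ¬ H.Colorable q ∧
      ∀ e ∈ H.edgeSet, (H.deleteEdges {e}).Colorable q := by
  classical
  have hfin : {H : SimpleGraph V | H ≤ G ∧ ¬ H.Colorable q}.Finite := Set.toFinite _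
  obtain ⟨H, hH⟩ := hfin.exists_minimal ⟨G, le_rfl, h⟩
  refine ⟨H, hH.prop.1, hH.prop.2, ?_⟩
  intro e he
  by_contra hc
  have h1 : H.deleteEdges {e} ≤ H := deleteEdges_le _
  have h2 : H ≤ H.deleteEdges {e} := hH.le_of_le ⟨h1.trans hH.prop.1, hc⟩ h1
  have h3 := edgeSet_mono h2 he
  rw [edgeSet_deleteEdges] at h3
  exact h3.2 rfl

/-- an edge whose deletion makes `G` colourable lies in each non-colourable subgraph -/
theorem crit_mem {V : Type*} (G H : SimpleGraph V) (q : ℕ) (hHG : H ≤ G) (hH : ¬ H.Colorable q)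
    (e : Sym2 V) (he : (G.deleteEdges {e}).Colorable q) : e ∈ H.edgeSet := by
  by_contra hc
  apply hH
  refine he.mono_left ?_
  intro a b hab
  rw [deleteEdges_adj]
  refine ⟨hHG hab, fun h => hc ?_⟩
  have h' : s(a, b) = e := h
  rw [← h']
  exact hab

/-- one more colour is enough when the deletion of an edge gives a `q`-colourable graph -/
theorem colorable_succ {V : Type*} (G : SimpleGraph V) (q : ℕ) (e : Sym2 V)
    (he : (G.deleteEdges {e}).Colorable q) : G.Colorable (q + 1) := by
  classical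
  obtain ⟨C⟩ := he
  induction e with | _ a b
  refine ⟨Coloring.mk (fun x => if x = a then Fin.last q else (C x).castSucc) ?_⟩
  intro x y hxy
  by_cases hx : x = a <;> by_cases hy : y = a
  · exact absurd (hx.trans hy.symm) hxy.ne
  · simp only [hx, hy, if_true, if_false]
    exact (Fin.castSucc_lt_last _).ne'
  · simp only [hx, hy, if_true, if_false]
    exact (Fin.castSucc_lt_last _).ne
  · simp only [hx, hy, if_false]
    intro h
    have h1 := Fin.castSucc_injective _ h
    refine C.valid ?_ h1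
    rw [deleteEdges_adj]
    refine ⟨hxy, fun h2 => ?_⟩
    have h3 : s(x, y) = s(a, b) := h2
    rw [Sym2.eq_iff] at h3
    rcases h3 with h3 | h3
    · exact hx h3.1
    · exact hy h3.2

/-- From a finite graph that is not `q`-colourable to a critical graph on `Fin n` that contains
all critical edges. -/
theorem finish {V : Type} [Finite V] (G : SimpleGraph V) (q : ℕ) (hq : 0 < q)
    (hG : ¬ G.Colorable q) (M : ℕ) (X Y : Fin M → V) (hX : Function.Injective X)
    (hY : Function.Injective Y) (hXY : ∀ i j, X i ≠ Y j)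
    (hcrit : ∀ i j, (G.deleteEdges {s(X i, Y j)}).Colorable q) (hM : 0 < M) :
    ∃ n : ℕ, M ≤ n ∧ n ≤ Nat.card V ∧ ∃ (K : SimpleGraph (Fin n)) (φ : K →g G),
      K.chromaticNumber = ((q + 1 : ℕ) : ℕ∞) ∧
      (∀ e ∈ K.edgeSet, (K.deleteEdges {e}).Colorable q) ∧
      (∀ v, ∃ w, K.Adj v w) ∧ M ^ 2 ≤ Nat.card K.edgeSet := by
  classical
  obtain ⟨H, hHG, hH, hcr⟩ := min_crit G q hG
  have hmem : ∀ i j, H.Adj (X i) (Y j) := fun i j => crit_mem G H q hHG hH _ (hcrit i j)
  let W : Set V := {x | ∃ y, H.Adj x y}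
  have : Finite W := Subtype.finite
  let ε : W ≃ Fin (Nat.card W) := Finite.equivFin W
  let f : Fin (Nat.card W) → V := fun i => (ε.symm i).1
  have hf : Function.Injective f := fun a b h => ε.symm.injective (Subtype.ext h)
  have hfs : ∀ x y, H.Adj x y → ∃ i, f i = x := by
    intro x y hxy
    exact ⟨ε ⟨x, y, hxy⟩, congrArg Subtype.val (ε.symm_apply_apply (⟨x, y, hxy⟩ : W))⟩
  let K : SimpleGraph (Fin (Nat.card W)) := H.comap f
  have hK : ∀ a b, K.Adj a b ↔ H.Adj (f a) (f b) := fun a b => Iff.rfl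
  -- colourings of `K` extend
  have hext : ∀ (S : SimpleGraph V), S ≤ H → (S.comap f).Colorable q → S.Colorable q := by
    rintro S hS ⟨C⟩
    have hex : ∀ x, (∃ i, f i = x) → ∃ i, f i = x := fun x h => h
    refine ⟨Coloring.mk (fun x => if h : ∃ i, f i = x then C h.choose else ⟨0, hq⟩) ?_⟩
    intro x y hxy
    obtain ⟨i, rfl⟩ := hfs x y (hS hxy)
    obtain ⟨j, rfl⟩ := hfs y (f i) (hS hxy).symm
    have hi : ∃ i', f i' = f i := ⟨i, rfl⟩
    have hj : ∃ j', f j' = f j := ⟨j, rfl⟩
    rw [dif_pos hi, dif_pos hj, hf hi.choose_spec, hf hj.choose_spec]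
    exact C.valid hxy
  have hKnot : ¬ K.Colorable q := fun h => hH (hext H le_rfl h)
  have hKcr : ∀ e ∈ K.edgeSet, (K.deleteEdges {e}).Colorable q := by
    intro e he
    induction e with | _ a b
    have hab : H.Adj (f a) (f b) := he
    obtain ⟨C⟩ := hcr s(f a, f b) hab
    refine ⟨Coloring.mk (fun x => C (f x)) ?_⟩
    intro x y hxy
    rw [deleteEdges_adj] at hxy
    apply C.valid
    rw [deleteEdges_adj]
    refine ⟨hxy.1, fun h => hxy.2 ?_⟩
    have h' : s(f x, f y) = s(f a, f b) := h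
    show s(x, y) = s(a, b)
    rw [Sym2.eq_iff] at h' ⊢
    rcases h' with h' | h'
    · exact Or.inl ⟨hf h'.1, hf h'.2⟩
    · exact Or.inr ⟨hf h'.1, hf h'.2⟩
  have hXW : ∀ i, ∃ a, f a = X i := fun i => hfs _ _ (hmem i ⟨0, hM⟩)
  have hYW : ∀ i, ∃ a, f a = Y i := fun i => hfs _ _ (hmem ⟨0, hM⟩ i).symm
  choose x hx using hXW
  choose y hy using hYW
  have hxi : Function.Injective x := by
    intro a b h
    apply hX
    rw [← hx, ← hx, h]
  have hyi : Function.Injective y := by
    intro a b h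
    apply hY
    rw [← hy, ← hy, h]
  refine ⟨Nat.card W, ?_, ?_, K, ⟨f, fun h => hHG h⟩, ?_, hKcr, ?_, ?_⟩
  · have := Nat.card_le_card_of_injective x hxi
    simpa using this
  · exact Nat.card_le_card_of_injective (fun w : W => w.1) Subtype.val_injective
  · push_cast
    rw [chromaticNumber_eq_iff_colorable_not_colorable]
    refine ⟨?_, hKnot⟩
    have hadj : K.Adj (x ⟨0, hM⟩) (y ⟨0, hM⟩) := by
      rw [hK, hx, hy]
      exact hmem _ _
    exact colorable_succ K q s(x ⟨0, hM⟩, y ⟨0, hM⟩) (hKcr _ hadj)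
  · intro v
    obtain ⟨z, hz⟩ := (ε.symm v).2
    obtain ⟨w, hw⟩ := hfs z _ hz.symm
    refine ⟨w, ?_⟩
    rw [hK, hw]
    exact hz
  · have hinj : Function.Injective (fun p : Fin M × Fin M =>
        (⟨s(x p.1, y p.2), by
          show K.Adj _ _
          rw [hK, hx, hy]
          exact hmem _ _⟩ : K.edgeSet)) := by
      rintro ⟨i, j⟩ ⟨i', j'⟩ h
      have h1 : s(x i, y j) = s(x i', y j') := congrArg Subtype.val h
      rw [Sym2.eq_iff] at h1
      rcases h1 with h1 | h1
      · exact Prod.ext (hxi h1.1) (hyi h1.2)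
      · exfalso
        apply hXY i j'
        rw [← hx, ← hy, h1.1]
    have := Nat.card_le_card_of_injective _ hinj
    rw [Nat.card_prod] at this
    simp only [Nat.card_eq_fintype_card, Fintype.card_fin] at this
    rw [sq, Nat.card_eq_fintype_card]
    exact this

end Pool.Agent.N426.Dense
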