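import Mathlib

/-!
A bipartite graph with lists of colours that has no list colouring, and in which each of the
`N ^ 2` edges between two sets of `N` vertices is critical.

The vertices are `(s, t, i)` with `s : Bool`, `t : Fin 3`, `i : Fin N`.
-/

set_option autoImplicit false

namespace Pool.Agent.N426.Dense

/-- vertices of the bipartite gadget -/
abbrev GV (N : ℕ) : Type := Bool × Fin 3 × Fin N

/-- the main colour of the vertices `(s, 0, i)` -/
def cA (s : Bool) : ℕ := if s then 2 else 1
/-- the other colour -/
def cB (s : Bool) : ℕ := if s then 1 else 2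

/-- the side of a vertex in the bipartition -/
def side {N : ℕ} (a : GV N) : Bool := if a.2.1 = 1 then !a.1 else a.1

/-- the lists -/
def Lst {N : ℕ} (a : GV N) (c : ℕ) : Prop :=
  (a.2.1 = 0 → c = 0 ∨ c = cA a.1) ∧
  (a.2.1 = 1 → c ≤ 2 ∧ (a.2.2.val = 0 → c ≠ 0) ∧ (a.2.2.val + 1 = N → c ≠ cB a.1)) ∧
  (a.2.1 = 2 → c = 0 ∨ c = cB a.1)

/-- the edges -/
def E {N : ℕ} (a b : GV N) : Prop :=
  (a.1 = b.1 ∧ a.2.1 = 0 ∧ b.2.1 = 1 ∧ a.2.2 = b.2.2) ∨
  (a.1 = b.1 ∧ a.2.1 = 2 ∧ b.2.1 = 1 ∧ (a.2.2 = b.2.2 ∨ a.2.2.val + 1 = b.2.2.val)) ∨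
  (a.1 = false ∧ b.1 = true ∧ a.2.1 = 0 ∧ b.2.1 = 0)

theorem E_side {N : ℕ} {a b : GV N} (h : E a b) : side a ≠ side b := by
  obtain ⟨s, t, i⟩ := a
  obtain ⟨s', t', i'⟩ := b
  rcases h with ⟨h1, h2, h3, h4⟩ | ⟨h1, h2, h3, h4⟩ | ⟨h1, h2, h3, h4⟩
  · simp only at h1 h2 h3 h4
    subst h1 h2 h3
    cases s <;> simp [side]
  · simp only at h1 h2 h3 h4
    subst h1 h2 h3
    cases s <;> simp [side]
  · simp only at h1 h2 h3 h4
    subst h1 h2 h3 h4
    simp [side]

/-- there is no list colouring -/
theorem no_list_coloring {N : ℕ} (hN : 0 < N) (f : GV N → ℕ) (hL : ∀ a, Lst a (f a))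
    (hE : ∀ a b, E a b → f a ≠ f b) : False := by
  have key : ∀ s : Bool, ∃ i : Fin N, f (s, 0, i) = 0 := by
    intro s
    by_contra hne
    push Not at hne
    have hx : ∀ i : Fin N, f (s, 0, i) = cA s := by
      intro i
      rcases (hL (s, 0, i)).1 rfl with h | h
      · exact absurd h (hne i)
      · exact h
    have hval : ∀ c : ℕ, c ≤ 2 → c ≠ 0 → c ≠ cA s → c = cB s := by
      intro c
      cases s <;> simp only [cA, cB] <;> intros <;> simp_all <;> omega
    have h0A : (0 : ℕ) ≠ cA s := by cases s <;> simp [cA]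
    have hc : ∀ i : ℕ, ∀ hi : i < N, f (s, 1, ⟨i, hi⟩) = cB s := by
      intro i
      induction i with
      | zero =>
        intro hi
        have h1 := (hL (s, 1, ⟨0, hi⟩)).2.1 rfl
        have h2 := hE (s, 0, ⟨0, hi⟩) (s, 1, ⟨0, hi⟩) (Or.inl ⟨rfl, rfl, rfl, rfl⟩)
        rw [hx] at h2
        exact hval _ h1.1 (h1.2.1 rfl) (fun h => h2 h.symm)
      | succ i ih =>
        intro hi
        have hi' : i < N := by omega
        have h0 := ih hi'
        have h1 := (hL (s, 1, ⟨i + 1, hi⟩)).2.1 rfl
        have h2 := hE (s, 0, ⟨i + 1, hi⟩) (s, 1, ⟨i + 1, hi⟩) (Or.inl ⟨rfl, rfl, rfl, rfl⟩)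
        rw [hx] at h2
        have h3 := (hL (s, 2, ⟨i, hi'⟩)).2.2 rfl
        have h4 := hE (s, 2, ⟨i, hi'⟩) (s, 1, ⟨i, hi'⟩)
          (Or.inr (Or.inl ⟨rfl, rfl, rfl, Or.inl rfl⟩))
        have h5 := hE (s, 2, ⟨i, hi'⟩) (s, 1, ⟨i + 1, hi⟩)
          (Or.inr (Or.inl ⟨rfl, rfl, rfl, Or.inr rfl⟩))
        rw [h0] at h4
        have h6 : f (s, 2, ⟨i, hi'⟩) = 0 := by
          rcases h3 with h | h
          · exact h
          · exact absurd h h4
        rw [h6] at h5
        exact hval _ h1.1 (fun h => h5 h.symm) (fun h => h2 h.symm)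
    have h1 := (hL (s, 1, ⟨N - 1, by omega⟩)).2.1 rfl
    exact h1.2.2 (by show N - 1 + 1 = N; omega) (hc (N - 1) (by omega))
  obtain ⟨i, hi⟩ := key false
  obtain ⟨j, hj⟩ := key true
  exact hE (false, 0, i) (true, 0, j) (Or.inr (Or.inr ⟨rfl, rfl, rfl, rfl⟩)) (hi.trans hj.symm)

/-- the colouring that is bad only at the edge between `(false, 0, i)` and `(true, 0, j)` -/
def phi {N : ℕ} (i j : Fin N) (a : GV N) : ℕ :=
  if a.2.1 = 0 then (if a.2.2 = (if a.1 then j else i) then 0 else cA a.1)
  else if a.2.1 = 1 then
    (if a.2.2 < (if a.1 then j else i) then cB a.1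
      else if a.2.2 = (if a.1 then j else i) then cA a.1 else 0)
  else (if a.2.2 < (if a.1 then j else i) then 0 else cB a.1)

theorem phi_le {N : ℕ} (i j : Fin N) (a : GV N) : phi i j a ≤ 2 := by
  unfold phi cA cB
  split_ifs <;> omega

theorem phi_list {N : ℕ} (i j : Fin N) (a : GV N) : Lst a (phi i j a) := by
  obtain ⟨s, t, l⟩ := a
  refine ⟨?_, ?_, ?_⟩
  · intro h
    simp only at h
    subst h
    simp only [phi, if_true]
    split_ifs <;> simp
  · intro h
    simp only at h
    subst h
    refine ⟨phi_le _ _ _, ?_, ?_⟩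
    · intro h
      have h0 : l.val = 0 := h
      have hA : cA s ≠ 0 := by cases s <;> simp [cA]
      have hB : cB s ≠ 0 := by cases s <;> simp [cB]
      have h10 : ¬ ((1 : Fin 3) = 0) := by decide
      simp only [phi, h10, if_true, if_false]
      generalize (if s = true then j else i) = p
      by_cases h1 : l < p
      · simp only [h1, if_true]; exact hB
      · by_cases h2 : l = p
        · simp only [h1, h2, if_true]
          rw [if_neg (lt_irrefl _)]
          exact hA
        · exfalso
          have h3 : p < l := lt_of_le_of_ne (not_lt.1 h1) (fun h => h2 h.symm)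
          have h4 : p.val < l.val := h3
          omega
    · intro h
      have h0 : l.val + 1 = N := h
      have hA : cA s ≠ cB s := by cases s <;> simp [cA, cB]
      have hB : (0 : ℕ) ≠ cB s := by cases s <;> simp [cB]
      have h10 : ¬ ((1 : Fin 3) = 0) := by decide
      simp only [phi, h10, if_true, if_false]
      generalize (if s = true then j else i) = p
      by_cases h1 : l < p
      · exfalso
        have h4 : l.val < p.val := h1
        have := p.2
        omega
      · by_cases h2 : l = p
        · simp only [h1, h2, if_true]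
          rw [if_neg (lt_irrefl _)]
          exact hA
        · simp only [h1, h2, if_false]
          exact hB
  · intro h
    simp only at h
    subst h
    have h10 : ¬ ((2 : Fin 3) = 0) := by decide
    have h11 : ¬ ((2 : Fin 3) = 1) := by decide
    simp only [phi, h10, h11, if_false]
    split_ifs <;> simp

theorem phi_edge {N : ℕ} (i j : Fin N) (a b : GV N) (h : E a b) (heq : phi i j a = phi i j b) :
    a = (false, 0, i) ∧ b = (true, 0, j) := by
  obtain ⟨s, t, l⟩ := a
  obtain ⟨s', t', l'⟩ := b
  have h10 : ¬ ((1 : Fin 3) = 0) := by decide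
  have h20 : ¬ ((2 : Fin 3) = 0) := by decide
  have h21 : ¬ ((2 : Fin 3) = 1) := by decide
  rcases h with ⟨h1, h2, h3, h4⟩ | ⟨h1, h2, h3, h4⟩ | ⟨h1, h2, h3, h4⟩
  · simp only at h1 h2 h3 h4
    subst h1 h2 h3 h4
    exfalso
    have hA : cA s ≠ 0 := by cases s <;> simp [cA]
    have hAB : cA s ≠ cB s := by cases s <;> simp [cA, cB]
    simp only [phi, h10, if_true, if_false] at heq
    generalize (if s = true then j else i) = p at heq
    by_cases h1 : l < p
    · have h2 : ¬ l = p := ne_of_lt h1
      simp only [h1, h2, if_true, if_false] at heq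
      exact hAB heq
    · by_cases h2 : l = p
      · simp only [h2, lt_irrefl, if_true, if_false] at heq
        exact hA heq.symm
      · simp only [h1, h2, if_false] at heq
        exact hA heq
  · simp only at h1 h2 h3 h4
    subst h1 h2 h3
    exfalso
    have hA : cA s ≠ 0 := by cases s <;> simp [cA]
    have hB : cB s ≠ 0 := by cases s <;> simp [cB]
    have hAB : cA s ≠ cB s := by cases s <;> simp [cA, cB]
    simp only [phi, h10, h20, h21, if_true, if_false] at heq
    generalize (if s = true then j else i) = p at heq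
    rcases h4 with h4 | h4
    · subst h4
      by_cases h1 : l < p
      · simp only [h1, if_true] at heq
        exact hB heq.symm
      · by_cases h2 : l = p
        · simp only [h2, lt_irrefl, if_true, if_false] at heq
          exact hAB heq.symm
        · simp only [h1, h2, if_false] at heq
          exact hB heq
    · by_cases h1 : l < p
      · simp only [h1, if_true] at heq
        by_cases h2 : l' < p
        · simp only [h2, if_true] at heq
          exact hB heq.symm
        · have h3 : l' = p := by
            apply Fin.ext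
            have h5 : l.val < p.val := h1
            have h6 : ¬ l'.val < p.val := h2
            omega
          simp only [h3, lt_irrefl, if_true, if_false] at heq
          exact hA heq.symm
      · have h5 : ¬ l.val < p.val := h1
        have h2 : ¬ l' < p := by
          intro h
          have h6 : l'.val < p.val := h
          omega
        have h3 : ¬ l' = p := by
          intro h
          have h6 : l'.val = p.val := congrArg Fin.val h
          omega
        simp only [h1, h2, h3, if_false] at heq
        exact hB heq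
  · simp only at h1 h2 h3 h4
    subst h1 h2 h3 h4
    simp only [phi, if_true, Bool.false_eq_true, if_false] at heq
    by_cases h1 : l = i
    · by_cases h2 : l' = j
      · rw [h1, h2]
        exact ⟨rfl, rfl⟩
      · simp [h1, h2, cA] at heq
    · by_cases h2 : l' = j
      · simp [h1, h2, cA] at heq
      · simp [h1, h2, cA] at heq

end Pool.Agent.N426.Dense
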