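import Pool.Agent.N426.Dense.Crit
import Pool.Agent.N426.Dense.Gadget
import Pool.Agent.Y387.CR.Shift

/-!
Dense critical graphs of large odd girth.

Let `H` be a graph without short odd closed walks and without `q`-colouring, and `u v` an edge of
`H` such that `H - uv` has a `q`-colouring. The graph consists of the bipartite gadget and of `q`
copies of `H - uv`; the ends `u` and `v` of the copies work as palette on the two sides of the
gadget. It has a homomorphism to `H`.
-/

set_option autoImplicit false

namespace Pool.Agent.N426.Dense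

open SimpleGraph

section Big

variable {U : Type} (H : SimpleGraph U) (u v : U) (q N : ℕ)

/-- the vertices -/
abbrev BV (U : Type) (q N : ℕ) : Type := GV N ⊕ (Fin q × U)

/-- the edges, each in one direction -/
def Rel : BV U q N → BV U q N → Prop
  | Sum.inl a, Sum.inl b => E a b
  | Sum.inl a, Sum.inr (j, s) => s = (if side a then u else v) ∧ ¬ Lst a j.val
  | Sum.inr (i, s), Sum.inr (j, t) =>
    (i = j ∧ (H.deleteEdges {s(u, v)}).Adj s t) ∨ (i ≠ j ∧ s = u ∧ t = v)
  | Sum.inr _, Sum.inl _ => False

/-- the graph -/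
def big : SimpleGraph (BV U q N) := SimpleGraph.fromRel (Rel H u v q N)

/-- the map to `H` -/
def toH : BV U q N → U
  | Sum.inl a => if side a then v else u
  | Sum.inr (_, s) => s

theorem rel_adj (huv : H.Adj u v) (x y : BV U q N) (h : Rel H u v q N x y) :
    H.Adj (toH u v q N x) (toH u v q N y) := by
  rcases x with a | ⟨i, s⟩ <;> rcases y with b | ⟨j, t⟩
  · have hs := E_side (show E a b from h)
    simp only [toH]
    cases ha : side a <;> cases hb : side b
    · rw [ha, hb] at hs; exact absurd rfl hs
    · simpa using huv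
    · simpa using huv.symm
    · rw [ha, hb] at hs; exact absurd rfl hs
  · have h1 : t = (if side a then u else v) := h.1
    simp only [toH]
    rw [h1]
    cases ha : side a
    · simpa using huv
    · simpa using huv.symm
  · exact h.elim
  · rcases h with ⟨_, h⟩ | ⟨_, h1, h2⟩
    · rw [deleteEdges_adj] at h
      exact h.1
    · simp only [toH]
      rw [h1, h2]
      exact huv

/-- the homomorphism to `H` -/
def homH (huv : H.Adj u v) : big H u v q N →g H where
  toFun := toH u v q N
  map_rel' := by
    intro x y h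
    rw [big, fromRel_adj] at h
    rcases h.2 with h | h
    · exact rel_adj H u v q N huv x y h
    · exact (rel_adj H u v q N huv y x h).symm

variable {H u v q N}

theorem big_adj (huv : H.Adj u v) {x y : BV U q N} (h : Rel H u v q N x y) :
    (big H u v q N).Adj x y := by
  rw [big, fromRel_adj]
  refine ⟨fun hxy => ?_, Or.inl h⟩
  have := rel_adj H u v q N huv x y h
  rw [hxy] at this
  exact H.loopless.irrefl _ this

theorem not_colorable (huv : H.Adj u v) (hH : ¬ H.Colorable q) (hN : 0 < N) :
    ¬ (big H u v q N).Colorable q := by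
  classical
  rintro ⟨C⟩
  -- the two ends of each copy have the same colour
  have hC : ∀ i : Fin q, C (Sum.inr (i, u)) = C (Sum.inr (i, v)) := by
    intro i
    by_contra hne
    apply hH
    refine ⟨Coloring.mk (fun s => C (Sum.inr (i, s))) ?_⟩
    intro s t hst
    by_cases h : s(s, t) = s(u, v)
    · rw [Sym2.eq_iff] at h
      rcases h with ⟨rfl, rfl⟩ | ⟨rfl, rfl⟩
      · exact hne
      · exact fun h => hne h.symm
    · apply C.valid
      apply big_adj huv
      refine Or.inl ⟨rfl, ?_⟩
      rw [deleteEdges_adj]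
      exact ⟨hst, h⟩
  let π : Fin q → Fin q := fun i => C (Sum.inr (i, u))
  have hπ : Function.Injective π := by
    intro i j hij
    by_contra hne
    have h1 : (big H u v q N).Adj (Sum.inr (i, u)) (Sum.inr (j, v)) :=
      big_adj huv (Or.inr ⟨hne, rfl, rfl⟩)
    apply C.valid h1
    rw [← hC j]
    exact hij
  have hπs : Function.Surjective π := Finite.surjective_of_injective hπ
  have hex : ∀ a : GV N, ∃ j, π j = C (Sum.inl a) ∧ Lst a j.val := by
    intro a
    obtain ⟨j, hj⟩ := hπs (C (Sum.inl a))
    refine ⟨j, hj, ?_⟩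
    by_contra hL
    have h1 : (big H u v q N).Adj (Sum.inl a) (Sum.inr (j, if side a then u else v)) :=
      big_adj huv ⟨rfl, hL⟩
    apply C.valid h1
    rw [← hj]
    cases ha : side a
    · simp only [Bool.false_eq_true, if_false]
      exact hC j
    · simp only [if_true]
      rfl
  choose f hf1 hf2 using hex
  refine no_list_coloring hN (fun a => (f a).val) hf2 ?_
  intro a b hab h
  have h1 : f a = f b := Fin.ext h
  have h2 : (big H u v q N).Adj (Sum.inl a) (Sum.inl b) := big_adj huv hab
  apply C.valid h2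
  rw [← hf1, ← hf1, h1]

theorem crit_colorable (huv : H.Adj u v) (hH : ¬ H.Colorable q)
    (hcol : (H.deleteEdges {s(u, v)}).Colorable q) (hq : 3 ≤ q) (i j : Fin N) :
    ((big H u v q N).deleteEdges
      {s((Sum.inl (false, 0, i) : BV U q N), Sum.inl (true, 0, j))}).Colorable q := by
  classical
  obtain ⟨ψ⟩ := hcol
  have hψ : ψ u = ψ v := by
    by_contra hne
    apply hH
    refine ⟨Coloring.mk (fun s => ψ s) ?_⟩
    intro s t hst
    by_cases h : s(s, t) = s(u, v)
    · rw [Sym2.eq_iff] at h
      rcases h with ⟨rfl, rfl⟩ | ⟨rfl, rfl⟩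
      · exact hne
      · exact fun h => hne h.symm
    · apply ψ.valid
      rw [deleteEdges_adj]
      exact ⟨hst, h⟩
  let F : BV U q N → Fin q := fun x => match x with
    | Sum.inl a => ⟨phi i j a, lt_of_le_of_lt (phi_le i j a) (by omega)⟩
    | Sum.inr (m, s) => Equiv.swap (ψ u) m (ψ s)
  have hFu : ∀ m, F (Sum.inr (m, u)) = m := fun m => Equiv.swap_apply_left _ _
  have hFv : ∀ m, F (Sum.inr (m, v)) = m := by
    intro m
    show Equiv.swap (ψ u) m (ψ v) = m
    rw [← hψ]
    exact Equiv.swap_apply_left _ _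
  have hR : ∀ x y : BV U q N, Rel H u v q N x y →
      s(x, y) ≠ s((Sum.inl (false, 0, i) : BV U q N), Sum.inl (true, 0, j)) → F x ≠ F y := by
    intro x y h hne heq
    rcases x with a | ⟨m, s⟩ <;> rcases y with b | ⟨m', t⟩
    · have h1 : phi i j a = phi i j b := congrArg Fin.val heq
      obtain ⟨rfl, rfl⟩ := phi_edge i j a b h h1
      exact hne rfl
    · have h1 : t = (if side a then u else v) := h.1
      have h2 : ¬ Lst a m'.val := h.2
      have h3 : F (Sum.inr (m', t)) = m' := by
        rw [h1]
        cases side a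
        · exact hFv m'
        · exact hFu m'
      rw [h3] at heq
      apply h2
      rw [← heq]
      exact phi_list i j a
    · exact h.elim
    · rcases h with ⟨h1, h⟩ | ⟨h1, h2, h3⟩
      · subst h1
        exact ψ.valid h ((Equiv.swap (ψ u) m).injective heq)
      · rw [h2, h3, hFu, hFv] at heq
        exact h1 heq
  refine ⟨Coloring.mk F ?_⟩
  intro x y hxy
  rw [deleteEdges_adj, big, fromRel_adj] at hxy
  obtain ⟨⟨_, h⟩, hne⟩ := hxy
  have hne' : s(x, y) ≠ s((Sum.inl (false, 0, i) : BV U q N), Sum.inl (true, 0, j)) := hne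
  rcases h with h | h
  · exact hR x y h hne'
  · have := hR y x h (by rw [Sym2.eq_swap]; exact hne')
    exact fun h => this h.symm

end Big

/-- for all `g` and `q` there is a critical edge in a graph without short odd closed walks -/
theorem exists_H (g q : ℕ) (hq : 0 < q) : ∃ (U : Type) (_ : Finite U) (H : SimpleGraph U) (u v : U),
    (∀ (x : U) (w : H.Walk x x), Odd w.length → g < w.length) ∧ H.Adj u v ∧ ¬ H.Colorable q ∧
      (H.deleteEdges {s(u, v)}).Colorable q := by
  classical
  obtain ⟨U, hU, K, hK, hcol⟩ := Pool.Agent.Y387.CR.exists_odd_girth g (Fin q)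
  have hKc : ¬ K.Colorable q := by
    rintro ⟨C⟩
    obtain ⟨x, y, hxy, h⟩ := hcol C
    exact C.valid hxy h
  obtain ⟨H, hHK, hH, hcr⟩ := min_crit K q hKc
  have hex : ∃ u v, H.Adj u v := by
    by_contra hne
    push Not at hne
    exact hH ⟨Coloring.mk (fun _ => ⟨0, hq⟩) (fun {x y} h => absurd h (hne x y))⟩
  obtain ⟨u, v, huv⟩ := hex
  refine ⟨U, hU, H, u, v, ?_, huv, hH, hcr _ huv⟩
  intro x w hw
  have := hK x (w.mapLe hHK) (by rwa [SimpleGraph.Walk.length_map])
  rwa [SimpleGraph.Walk.length_map] at this

/-- dense critical graphs of large odd girth, with the absolute constant `1 / 49` -/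
theorem dense (g q : ℕ) (hq : 3 ≤ q) (N : ℕ) : ∃ n : ℕ, N ≤ n ∧
    ∃ G : SimpleGraph (Fin n),
      G.chromaticNumber = ((q + 1 : ℕ) : ℕ∞) ∧
      (∀ e ∈ G.edgeSet, (G.deleteEdges {e}).Colorable q) ∧
      (∀ v : Fin n, ∃ w : Fin n, G.Adj v w) ∧
      (∀ (v : Fin n) (p : G.Walk v v), Odd p.length → g < p.length) ∧
      n ^ 2 ≤ 49 * Nat.card G.edgeSet := by
  classical
  obtain ⟨U, hU, H, u, v, hodd, huv, hH, hcr⟩ := exists_H g q (by omega)
  set M : ℕ := N + q * Nat.card U + 1 with hM
  obtain ⟨n, hn1, hn2, K, φ, hK1, hK2, hK3, hK4⟩ := finish (big H u v q M) q (by omega)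
    (not_colorable huv hH (by omega)) M (fun i => Sum.inl (false, 0, i))
    (fun j => Sum.inl (true, 0, j))
    (fun a b h => by simpa using h) (fun a b h => by simpa using h)
    (fun a b h => by simp at h) (fun i j => crit_colorable huv hH hcr hq i j) (by omega)
  refine ⟨n, by omega, K, hK1, hK2, hK3, ?_, ?_⟩
  · intro x p hp
    have := hodd _ (p.map ((homH H u v q M huv).comp φ)) (by rwa [SimpleGraph.Walk.length_map])
    rwa [SimpleGraph.Walk.length_map] at this
  · have hcard : Nat.card (BV U q M) = 6 * M + q * Nat.card U := by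
      rw [Nat.card_sum, Nat.card_prod, Nat.card_prod, Nat.card_prod]
      simp only [Nat.card_eq_fintype_card, Fintype.card_fin, Fintype.card_bool]
      ring
    rw [hcard] at hn2
    have h7 : n ≤ 7 * M := by omega
    calc n ^ 2 ≤ (7 * M) ^ 2 := Nat.pow_le_pow_left h7 2
      _ = 49 * M ^ 2 := by ring
      _ ≤ 49 * Nat.card K.edgeSet := Nat.mul_le_mul_left _ hK4

end Pool.Agent.N426.Dense
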